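import Mathlib

/-!
# The underlying digraph does not determine a Young graph

The `(239,27)` and `(493,316)` Young graphs have isomorphic underlying directed graphs (with 14
nodes), but the first has one even pivot node and the second has three.
-/

namespace Pool.Agent.Results.MP_5fcb94_co.YoungPivots

open Relation

/-- The possible nodes of `H(g,k)`: the starting node `[[0,0]]` and the ordinary nodes `[r', r]`
with `0 ≤ r', r < k`. -/
inductive Node (k : ℕ) : Type
  | start : Node k
  | ord (r' r : Fin k) : Node k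
deriving DecidableEq

/-- The first entry `r'` of a node (the starting node counts as `r' = r = 0`). -/
def Node.fst {k : ℕ} : Node k → ℤ
  | .start => 0
  | .ord r' _ => (r'.val : ℤ)

/-- The second entry `r` of a node. -/
def Node.snd {k : ℕ} : Node k → ℤ
  | .start => 0
  | .ord _ r => (r.val : ℤ)

/-- The edge `u → v` labelled `(b, a)`. -/
def LabelledEdge (g k : ℕ) (u v : Node k) (b a : ℤ) : Prop :=
  (0 ≤ a ∧ a < g) ∧ (0 ≤ b ∧ b < g) ∧
  k * a + u.snd ≡ b [ZMOD g] ∧
  (0 ≤ a + u.fst * g - k * b ∧ a + u.fst * g - k * b < k) ∧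
  (u = .start → 1 ≤ a ∧ 1 ≤ b) ∧
  v ≠ .start ∧ v.fst = a + u.fst * g - k * b ∧ v.snd = (k * a + u.snd - b) / g

/-- The edges with the labels forgotten. -/
def Edge (g k : ℕ) (u v : Node k) : Prop := ∃ b a : ℤ, LabelledEdge g k u v b a

/-- The nodes of `H(g,k)`: those reachable from the starting node. -/
def InH (g k : ℕ) (v : Node k) : Prop := ReflTransGen (Edge g k) .start v

/-- Even pivot nodes of `H(g,k)`: the ordinary nodes `[r, r]`. -/
def EvenPivot (g k : ℕ) (v : Node k) : Prop :=
  InH g k v ∧ ∃ r : Fin k, v = .ord r r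

/-- Odd pivot nodes of `H(g,k)`: an ordinary node `[r, r]` carrying a loop, or an ordinary node
`[r', r]` with `r' ≠ r` that has an edge to `[r, r']`. -/
def OddPivot (g k : ℕ) (v : Node k) : Prop :=
  InH g k v ∧ ((∃ r : Fin k, v = .ord r r ∧ Edge g k v v) ∨
    ∃ r' r : Fin k, r' ≠ r ∧ v = .ord r' r ∧ Edge g k v (.ord r r'))

/-- Pivot nodes. -/
def Pivot (g k : ℕ) (v : Node k) : Prop := EvenPivot g k v ∨ OddPivot g k v

/-- The `(g,k)` Young graph exists: `H(g,k)` has a pivot node other than `[0,0]`. -/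
def YoungExists (g k : ℕ) : Prop :=
  ∃ v : Node k, Pivot g k v ∧ ¬ (v.fst = 0 ∧ v.snd = 0)

/-- The nodes of the `(g,k)` Young graph: the nodes of `H(g,k)` from which a pivot node is
reachable. -/
def YoungNode (g k : ℕ) : Type :=
  {v : Node k // InH g k v ∧ ∃ w, Pivot g k w ∧ ReflTransGen (Edge g k) v w}

/-- The edges of the underlying directed graph of the `(g,k)` Young graph. -/
def YoungAdj (g k : ℕ) (u v : YoungNode g k) : Prop := Edge g k u.1 v.1

/-- The underlying directed graphs of two Young graphs are isomorphic. -/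
def DigraphIso (g k g' k' : ℕ) : Prop := Nonempty (YoungAdj g k ≃r YoungAdj g' k')

/-- Two Young graphs are isomorphic as Young graphs. -/
def YoungIso (g k g' k' : ℕ) : Prop :=
  ∃ e : YoungAdj g k ≃r YoungAdj g' k',
    (∀ v, EvenPivot g k v.1 ↔ EvenPivot g' k' (e v).1) ∧
    (∀ v, OddPivot g k v.1 ↔ OddPivot g' k' (e v).1)

/-! ### A computable description of the edges -/

/-- The successors of `[r', r]`. -/
def succs (g k r' r : ℕ) : List (ℕ × ℕ) :=
  (List.range g).filterMap fun a =>
    if (k * a + r) % g = (a + r' * g) / k then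
      some ((a + r' * g) % k, (k * a + r) / g) else none

/-- The successors of the starting node. -/
def succs0 (g k : ℕ) : List (ℕ × ℕ) :=
  (List.range g).filterMap fun a =>
    if 1 ≤ a ∧ 1 ≤ a / k ∧ (k * a) % g = a / k then
      some (a % k, (k * a) / g) else none

theorem arith {g k r' r t s a b : ℕ} (hg : 0 < g) (hk : 0 < k) :
    ((b < g) ∧ ((k : ℤ) * a + r ≡ b [ZMOD g]) ∧
      ((0 : ℤ) ≤ a + r' * g - k * b ∧ (a : ℤ) + r' * g - k * b < k) ∧
      (t : ℤ) = a + r' * g - k * b ∧ (s : ℤ) = (k * a + r - b) / g) ↔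
    b = (k * a + r) % g ∧ (k * a + r) % g = (a + r' * g) / k ∧
      t = (a + r' * g) % k ∧ s = (k * a + r) / g := by
  constructor
  · rintro ⟨h1, h2, ⟨h3, h4⟩, h5, h6⟩
    have e1 : (k * a + r) % g = b := by
      have : (k * a + r) ≡ b [MOD g] := by
        have h2' : (((k * a + r : ℕ) : ℤ)) ≡ (b : ℤ) [ZMOD (g : ℤ)] := by push_cast; exact h2
        exact Int.natCast_modEq_iff.mp h2'
      have h7 : (k * a + r) % g = b % g := this
      rw [h7, Nat.mod_eq_of_lt h1]
    have e2 : a + r' * g = k * b + t := by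
      have : ((a + r' * g : ℕ) : ℤ) = ((k * b + t : ℕ) : ℤ) := by push_cast; linarith
      exact_mod_cast this
    have ht : t < k := by
      have : (t : ℤ) < k := by rw [h5]; exact h4
      exact_mod_cast this
    have e3 : (a + r' * g) / k = b := by
      rw [e2, Nat.mul_add_div hk, Nat.div_eq_of_lt ht, Nat.add_zero]
    have e4 : (a + r' * g) % k = t := by
      rw [e2, Nat.mul_add_mod, Nat.mod_eq_of_lt ht]
    refine ⟨e1.symm, by rw [e1, e3], e4.symm, ?_⟩
    have e5 : k * a + r = g * ((k * a + r) / g) + b := by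
      conv_lhs => rw [← Nat.div_add_mod (k * a + r) g]
      rw [e1]
    have e6 : (k : ℤ) * a + r - b = g * (((k * a + r) / g : ℕ) : ℤ) := by
      have : ((k * a + r : ℕ) : ℤ) = ((g * ((k * a + r) / g) + b : ℕ) : ℤ) := by
        exact_mod_cast e5
      rw [Nat.cast_add, Nat.cast_add, Nat.cast_mul, Nat.cast_mul] at this
      linarith
    rw [e6, Int.mul_ediv_cancel_left _ (by exact_mod_cast hg.ne')] at h6
    exact_mod_cast h6
  · rintro ⟨h1, h2, h3, h4⟩
    have hb : b < g := by rw [h1]; exact Nat.mod_lt _ hg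
    have e2 : a + r' * g = k * b + t := by
      rw [h3, h1, h2]; exact (Nat.div_add_mod _ _).symm
    have e2' : (a : ℤ) + r' * g - k * b = t := by
      have : ((a + r' * g : ℕ) : ℤ) = ((k * b + t : ℕ) : ℤ) := by exact_mod_cast e2
      push_cast at this
      linarith
    have ht : t < k := by rw [h3]; exact Nat.mod_lt _ hk
    have e5 : k * a + r = g * s + b := by
      rw [h4, h1]; exact (Nat.div_add_mod _ _).symm
    have e5' : (k : ℤ) * a + r - b = g * s := by
      have : ((k * a + r : ℕ) : ℤ) = ((g * s + b : ℕ) : ℤ) := by exact_mod_cast e5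
      push_cast at this
      linarith
    refine ⟨hb, ?_, ⟨?_, ?_⟩, ?_, ?_⟩
    · refine (Int.modEq_iff_dvd.mpr ?_)
      refine ⟨-(s : ℤ), ?_⟩
      linarith
    · rw [e2']; positivity
    · rw [e2']; exact_mod_cast ht
    · rw [e2']
    · rw [e5', Int.mul_ediv_cancel_left _ (by exact_mod_cast hg.ne')]

theorem edge_ord {g k : ℕ} (hg : 0 < g) (hk : 0 < k) (r' r t s : Fin k) :
    Edge g k (.ord r' r) (.ord t s) ↔ (t.val, s.val) ∈ succs g k r'.val r.val := by
  unfold succs
  rw [List.mem_filterMap]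
  constructor
  · rintro ⟨b, a, ⟨ha0, ha1⟩, ⟨hb0, hb1⟩, h1, h2, _, _, h3, h4⟩
    obtain ⟨A, rfl⟩ := Int.eq_ofNat_of_zero_le ha0
    obtain ⟨B, rfl⟩ := Int.eq_ofNat_of_zero_le hb0
    have := (arith (r' := r'.val) (r := r.val) (t := t.val) (s := s.val) (a := A) (b := B)
      hg hk).mp ⟨by exact_mod_cast hb1, h1, h2, h3, h4⟩
    obtain ⟨c1, c2, c3, c4⟩ := this
    refine ⟨A, List.mem_range.mpr (by exact_mod_cast ha1), ?_⟩
    rw [if_pos c2, ← c3, ← c4]
  · rintro ⟨A, hA, h⟩
    rw [List.mem_range] at hA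
    split_ifs at h with hc
    have h' := Option.some.inj h
    have c3 : t.val = (A + r'.val * g) % k := (congrArg Prod.fst h').symm
    have c4 : s.val = (k * A + r.val) / g := (congrArg Prod.snd h').symm
    have := (arith (r' := r'.val) (r := r.val) (t := t.val) (s := s.val) (a := A)
      (b := (k * A + r.val) % g) hg hk).mpr ⟨rfl, hc, c3, c4⟩
    obtain ⟨d1, d2, d3, d4, d5⟩ := this
    refine ⟨(((k * A + r.val) % g : ℕ) : ℤ), (A : ℤ), ⟨by positivity, by exact_mod_cast hA⟩,
      ⟨by positivity, by exact_mod_cast d1⟩, d2, d3, ?_, ?_, d4, d5⟩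
    · intro h; cases h
    · intro h; cases h

theorem edge_start {g k : ℕ} (hg : 0 < g) (hk : 0 < k) (t s : Fin k) :
    Edge g k .start (.ord t s) ↔ (t.val, s.val) ∈ succs0 g k := by
  unfold succs0
  rw [List.mem_filterMap]
  constructor
  · rintro ⟨b, a, ⟨ha0, ha1⟩, ⟨hb0, hb1⟩, h1, h2, h5, _, h3, h4⟩
    obtain ⟨A, rfl⟩ := Int.eq_ofNat_of_zero_le ha0
    obtain ⟨B, rfl⟩ := Int.eq_ofNat_of_zero_le hb0
    have := (arith (r' := 0) (r := 0) (t := t.val) (s := s.val) (a := A) (b := B)
      hg hk).mp ⟨by exact_mod_cast hb1, by simpa [Node.snd] using h1,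
        by simpa [Node.fst] using h2, by simpa [Node.fst] using h3, by simpa [Node.snd] using h4⟩
    obtain ⟨c1, c2, c3, c4⟩ := this
    obtain ⟨g1, g2⟩ := h5 rfl
    rw [Nat.zero_mul, Nat.add_zero] at c2 c3
    rw [Nat.add_zero] at c1 c2 c4
    have hB : 1 ≤ B := by exact_mod_cast g2
    have hA1 : 1 ≤ A := by exact_mod_cast g1
    refine ⟨A, List.mem_range.mpr (by exact_mod_cast ha1), ?_⟩
    rw [if_pos ⟨hA1, by rw [← c2, ← c1]; exact hB, c2⟩, ← c3, ← c4]
  · rintro ⟨A, hA, h⟩
    rw [List.mem_range] at hA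
    split_ifs at h with hc
    obtain ⟨hc1, hc2, hc3⟩ := hc
    have h' := Option.some.inj h
    have c3 : t.val = A % k := (congrArg Prod.fst h').symm
    have c4 : s.val = (k * A) / g := (congrArg Prod.snd h').symm
    have := (arith (r' := 0) (r := 0) (t := t.val) (s := s.val) (a := A)
      (b := (k * A) % g) hg hk).mpr ⟨rfl, by simpa using hc3, by simpa using c3, by simpa using c4⟩
    obtain ⟨d1, d2, d3, d4, d5⟩ := this
    refine ⟨(((k * A) % g : ℕ) : ℤ), (A : ℤ), ⟨by positivity, by exact_mod_cast hA⟩,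
      ⟨by positivity, by exact_mod_cast d1⟩, ?_, ?_, ?_, ?_, ?_, ?_⟩
    · simpa [Node.snd] using d2
    · simpa [Node.fst] using d3
    · intro _
      refine ⟨by exact_mod_cast hc1, ?_⟩
      have : 1 ≤ (k * A) % g := by rw [hc3]; exact hc2
      exact_mod_cast this
    · intro h; cases h
    · simpa [Node.fst] using d4
    · simpa [Node.snd] using d5

theorem not_edge_start {g k : ℕ} (u : Node k) : ¬ Edge g k u .start := by
  rintro ⟨b, a, h⟩
  exact h.2.2.2.2.2.1 rfl

/-- The successors of a node, as pairs of natural numbers. -/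
def succN (g k : ℕ) : Node k → List (ℕ × ℕ)
  | .start => succs0 g k
  | .ord r' r => succs g k r'.val r.val

/-- The code of a node. -/
def code {k : ℕ} : Node k → Option (ℕ × ℕ)
  | .start => none
  | .ord r' r => some (r'.val, r.val)

theorem code_inj {k : ℕ} {u v : Node k} (h : code u = code v) : u = v := by
  match u, v, h with
  | .start, .start, _ => rfl
  | .start, .ord _ _, h => cases h
  | .ord _ _, .start, h => cases h
  | .ord a b, .ord c d, h =>
    have h' := Option.some.inj h
    have h1 : a = c := Fin.ext (congrArg Prod.fst h')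
    have h2 : b = d := Fin.ext (congrArg Prod.snd h')
    rw [h1, h2]

theorem edge_iff {g k : ℕ} (hg : 0 < g) (hk : 0 < k) (u v : Node k) :
    Edge g k u v ↔ ∃ q ∈ succN g k u, code v = some q := by
  match u, v with
  | u, .start =>
    constructor
    · intro h; exact absurd h (not_edge_start u)
    · rintro ⟨q, _, h⟩; cases h
  | .start, .ord t s =>
    rw [edge_start hg hk]
    constructor
    · intro h; exact ⟨_, h, rfl⟩
    · rintro ⟨q, h, h2⟩
      have : (t.val, s.val) = q := Option.some.inj h2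
      rw [this]; exact h
  | .ord r' r, .ord t s =>
    rw [edge_ord hg hk]
    constructor
    · intro h; exact ⟨_, h, rfl⟩
    · rintro ⟨q, h, h2⟩
      have : (t.val, s.val) = q := Option.some.inj h2
      rw [this]; exact h

/-! ### The common underlying directed graph -/

/-- The out-neighbours in the common digraph on 14 nodes. -/
def T : Fin 14 → List (Fin 14) :=
  ![[1], [2, 7], [3], [4], [5], [6], [12], [8], [9], [10], [11], [12], [13, 1], [13, 1]]

/-- `p` describes `H(g,k)` by the digraph `T`. -/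
structure Describes (g k : ℕ) (p : Fin 14 → Node k) : Prop where
  zero : p 0 = .start
  inj : Function.Injective p
  edge : ∀ i v, Edge g k (p i) v ↔ ∃ j ∈ T i, v = p j

theorem describes_of {g k : ℕ} (hg : 0 < g) (hk : 0 < k) (p : Fin 14 → Node k)
    (h0 : p 0 = .start) (hi : ∀ i j, code (p i) = code (p j) → i = j)
    (h1 : ∀ i, ∀ q ∈ succN g k (p i), ∃ j ∈ T i, code (p j) = some q)
    (h2 : ∀ i, ∀ j ∈ T i, ∃ q ∈ succN g k (p i), code (p j) = some q) : Describes g k p := by
  refine ⟨h0, fun i j h => hi i j (congrArg code h), fun i v => ?_⟩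
  rw [edge_iff hg hk]
  constructor
  · rintro ⟨q, hq, hv⟩
    obtain ⟨j, hj, hjq⟩ := h1 i q hq
    exact ⟨j, hj, code_inj (by rw [hv, hjq])⟩
  · rintro ⟨j, hj, rfl⟩
    exact h2 i j hj

theorem T_reach : ∀ i : Fin 14, ReflTransGen (fun a b => b ∈ T a) 0 i := by
  have r0 : ReflTransGen (fun a b : Fin 14 => b ∈ T a) 0 0 := ReflTransGen.refl
  have r1 := r0.tail (show (1 : Fin 14) ∈ T 0 by decide)
  have r2 := r1.tail (show (2 : Fin 14) ∈ T 1 by decide)
  have r3 := r2.tail (show (3 : Fin 14) ∈ T 2 by decide)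
  have r4 := r3.tail (show (4 : Fin 14) ∈ T 3 by decide)
  have r5 := r4.tail (show (5 : Fin 14) ∈ T 4 by decide)
  have r6 := r5.tail (show (6 : Fin 14) ∈ T 5 by decide)
  have r7 := r1.tail (show (7 : Fin 14) ∈ T 1 by decide)
  have r8 := r7.tail (show (8 : Fin 14) ∈ T 7 by decide)
  have r9 := r8.tail (show (9 : Fin 14) ∈ T 8 by decide)
  have r10 := r9.tail (show (10 : Fin 14) ∈ T 9 by decide)
  have r11 := r10.tail (show (11 : Fin 14) ∈ T 10 by decide)
  have r12 := r6.tail (show (12 : Fin 14) ∈ T 6 by decide)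
  have r13 := r12.tail (show (13 : Fin 14) ∈ T 12 by decide)
  intro i
  fin_cases i
  exacts [r0, r1, r2, r3, r4, r5, r6, r7, r8, r9, r10, r11, r12, r13]

theorem T_reach' : ∀ i : Fin 14, ReflTransGen (fun a b => b ∈ T a) i 13 := by
  have r13 : ReflTransGen (fun a b : Fin 14 => b ∈ T a) 13 13 := ReflTransGen.refl
  have r12 := ReflTransGen.head (show (13 : Fin 14) ∈ T 12 by decide) r13
  have r6 := ReflTransGen.head (show (12 : Fin 14) ∈ T 6 by decide) r12
  have r5 := ReflTransGen.head (show (6 : Fin 14) ∈ T 5 by decide) r6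
  have r4 := ReflTransGen.head (show (5 : Fin 14) ∈ T 4 by decide) r5
  have r3 := ReflTransGen.head (show (4 : Fin 14) ∈ T 3 by decide) r4
  have r2 := ReflTransGen.head (show (3 : Fin 14) ∈ T 2 by decide) r3
  have r1 := ReflTransGen.head (show (2 : Fin 14) ∈ T 1 by decide) r2
  have r0 := ReflTransGen.head (show (1 : Fin 14) ∈ T 0 by decide) r1
  have r11 := ReflTransGen.head (show (12 : Fin 14) ∈ T 11 by decide) r12
  have r10 := ReflTransGen.head (show (11 : Fin 14) ∈ T 10 by decide) r11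
  have r9 := ReflTransGen.head (show (10 : Fin 14) ∈ T 9 by decide) r10
  have r8 := ReflTransGen.head (show (9 : Fin 14) ∈ T 8 by decide) r9
  have r7 := ReflTransGen.head (show (8 : Fin 14) ∈ T 7 by decide) r8
  intro i
  fin_cases i
  exacts [r0, r1, r2, r3, r4, r5, r6, r7, r8, r9, r10, r11, r12, r13]

namespace Describes

variable {g k : ℕ} {p : Fin 14 → Node k}

theorem lift_reach (h : Describes g k p) {i j : Fin 14}
    (hr : ReflTransGen (fun a b => b ∈ T a) i j) : ReflTransGen (Edge g k) (p i) (p j) := by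
  induction hr with
  | refl => exact ReflTransGen.refl
  | tail _ hb ih => exact ih.tail ((h.edge _ _).mpr ⟨_, hb, rfl⟩)

theorem inH_iff (h : Describes g k p) (v : Node k) : InH g k v ↔ ∃ i, v = p i := by
  constructor
  · intro hv
    induction hv with
    | refl => exact ⟨0, h.zero.symm⟩
    | tail _ hb ih =>
      obtain ⟨i, rfl⟩ := ih
      obtain ⟨j, _, rfl⟩ := (h.edge _ _).mp hb
      exact ⟨j, rfl⟩
  · rintro ⟨i, rfl⟩
    have := h.lift_reach (T_reach i)
    rw [h.zero] at this
    exact this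

/-- The map from the 14 indices to the nodes of the Young graph. -/
def toNode (h : Describes g k p) (hpiv : Pivot g k (p 13)) (i : Fin 14) : YoungNode g k :=
  ⟨p i, (h.inH_iff _).mpr ⟨i, rfl⟩, p 13, hpiv, h.lift_reach (T_reach' i)⟩

/-- The digraph `T` is isomorphic to the underlying digraph of the Young graph. -/
noncomputable def iso (h : Describes g k p) (hpiv : Pivot g k (p 13)) :
    (fun a b : Fin 14 => b ∈ T a) ≃r YoungAdj g k where
  toEquiv := Equiv.ofBijective (h.toNode hpiv) (by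
    constructor
    · intro i j hij
      exact h.inj (congrArg Subtype.val hij)
    · rintro ⟨v, hv, w⟩
      obtain ⟨i, rfl⟩ := (h.inH_iff v).mp hv
      exact ⟨i, rfl⟩)
  map_rel_iff' := by
    intro a b
    change Edge g k (p a) (p b) ↔ b ∈ T a
    rw [h.edge]
    constructor
    · rintro ⟨j, hj, hb⟩
      rw [h.inj hb]; exact hj
    · intro hb
      exact ⟨b, hb, rfl⟩

end Describes

/-- The nodes of `H(239,27)`. -/
def p1 : Fin 14 → Node 27 :=
  ![.start, .ord 6 22, .ord 19 23, .ord 18 10, .ord 2 26, .ord 9 5, .ord 1 13,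
    .ord 13 1, .ord 5 9, .ord 26 2, .ord 10 18, .ord 23 19, .ord 22 6, .ord 0 0]

/-- The nodes of `H(493,316)`. -/
def p2 : Fin 14 → Node 316 :=
  ![.start, .ord 138 291, .ord 238 295, .ord 230 287, .ord 96 96, .ord 287 230, .ord 295 238,
    .ord 100 4, .ord 130 283, .ord 104 104, .ord 283 130, .ord 4 100, .ord 291 138, .ord 0 0]

theorem d1 : Describes 239 27 p1 := by
  refine describes_of (by decide) (by decide) p1 rfl ?_ ?_ ?_
  · decide +kernel
  · decide +kernel
  · decide +kernel

theorem d2 : Describes 493 316 p2 := by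
  refine describes_of (by decide) (by decide) p2 rfl ?_ ?_ ?_
  · decide +kernel
  · decide +kernel
  · decide +kernel

theorem even1_aux : ∀ i : Fin 14, ((p1 i).fst = (p1 i).snd ∧ p1 i ≠ .start) → i = 13 := by
  decide +kernel

theorem even1 {i : Fin 14} (h : EvenPivot 239 27 (p1 i)) : i = 13 := by
  obtain ⟨_, r, hr⟩ := h
  refine even1_aux i ?_
  rw [hr]
  exact ⟨rfl, by intro h; cases h⟩

theorem even2 : EvenPivot 493 316 (p2 13) ∧ EvenPivot 493 316 (p2 4) :=
  ⟨⟨(d2.inH_iff _).mpr ⟨_, rfl⟩, 0, rfl⟩, ⟨(d2.inH_iff _).mpr ⟨_, rfl⟩, 96, rfl⟩⟩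

theorem piv1 : Pivot 239 27 (p1 13) := Or.inl ⟨(d1.inH_iff _).mpr ⟨_, rfl⟩, 0, rfl⟩

theorem exists1 : YoungExists 239 27 := by
  refine ⟨p1 12, Or.inr ⟨(d1.inH_iff _).mpr ⟨_, rfl⟩, Or.inr ⟨22, 6, by decide, rfl, ?_⟩⟩, ?_⟩
  · exact (d1.edge 12 _).mpr ⟨1, by decide, rfl⟩
  · rintro ⟨h, _⟩
    change ((22 : ℕ) : ℤ) = 0 at h
    omega

theorem exists2 : YoungExists 493 316 := by
  refine ⟨p2 4, Or.inl even2.2, ?_⟩
  rintro ⟨h, _⟩
  change ((96 : ℕ) : ℤ) = 0 at h
  omega

/-- The `(239,27)` and `(493,316)` Young graphs both exist and have isomorphic underlying directed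
graphs, but they are not isomorphic as Young graphs. -/
theorem result :
    YoungExists 239 27 ∧ YoungExists 493 316 ∧
      DigraphIso 239 27 493 316 ∧ ¬ YoungIso 239 27 493 316 := by
  refine ⟨exists1, exists2, ⟨(d1.iso piv1).symm.trans (d2.iso (Or.inl even2.1))⟩, ?_⟩
  rintro ⟨e, he, _⟩
  have key : ∀ j : Fin 14, EvenPivot 493 316 (p2 j) →
      (e (d1.toNode piv1 13)).1 = p2 j := by
    intro j hj
    obtain ⟨v, hv⟩ := e.surjective (d2.toNode (Or.inl even2.1) j)
    have h1 : EvenPivot 239 27 v.1 := by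
      rw [he v, hv]; exact hj
    obtain ⟨i, hi⟩ := (d1.inH_iff v.1).mp v.2.1
    have h2 : i = 13 := even1 (by rw [← hi]; exact h1)
    have h3 : v = d1.toNode piv1 13 := Subtype.ext (by rw [hi, h2]; rfl)
    rw [← h3, hv]
    rfl
  have h4 : p2 13 = p2 4 := (key 13 even2.1).symm.trans (key 4 even2.2)
  have h5 : (13 : Fin 14) = 4 := d2.inj h4
  exact absurd h5 (by decide)

end Pool.Agent.Results.MP_5fcb94_co.YoungPivots
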